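import Mathlib
import Pool.Agent.P.MP_a378b9_nt.Final

set_option autoImplicit false

namespace Pool.Agent.Results.MP_a378b9_nt.Full

open Finset

/-- The generalized binomial coefficient `a(a-1)...(a-k+1)/k!`. -/
def gbinom (a : ℚ) (k : ℕ) : ℚ := (∏ i ∈ range k, (a - i)) / (k.factorial : ℚ)

/-- The sum `S_p`. -/
def S (p : ℕ) : ℚ := ∑ k ∈ range p, gbinom (-1 / 3) k * gbinom (-1 / 6) k * (-4) ^ k

/-- The sum `T_p`. -/
def T (p : ℕ) : ℚ := ∑ k ∈ range p, gbinom (-2 / 3) k * gbinom (-5 / 6) k * (-4) ^ k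

/-- The factor `(5/p) * 5^((1 - (p/3))/2)`; `legendreSym q a` is the symbol `(a/q)`. -/
def eps (p : ℕ) [Fact p.Prime] : ℚ :=
  (legendreSym p 5 : ℚ) * (5 : ℚ) ^ ((1 - legendreSym 3 (p : ℤ)) / 2 : ℤ)

/-- `a ≡ b` modulo `p^2` in the ring of rationals with denominator prime to `p`. -/
def Cong (p : ℕ) (a b : ℚ) : Prop := ∃ c : ℚ, ¬ p ∣ c.den ∧ a - b = (p : ℚ) ^ 2 * c

theorem result (p : ℕ) [Fact p.Prime] (hp : 5 < p) (x y : ℤ) :
    ((p : ℤ) = x ^ 2 + 15 * y ^ 2 →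
      Cong p (S p) (eps p * T p) ∧
      Cong p (eps p * T p) ((legendreSym 3 x : ℚ) * (2 * (x : ℚ) - (p : ℚ) / (2 * (x : ℚ))))) ∧
    ((p : ℤ) = 5 * x ^ 2 + 3 * y ^ 2 →
      Cong p (S p) (eps p * T p) ∧
      Cong p (eps p * T p) (-(legendreSym 3 x : ℚ) * (10 * (x : ℚ) - (p : ℚ) / (2 * (x : ℚ))))) := by
  have hS : S p = Pool.Agent.P.MP_a378b9_nt.sm (1 / 3) (1 / 6) p := by
    simp only [S, gbinom, Pool.Agent.P.MP_a378b9_nt.sm, neg_div]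
  have hT : T p = Pool.Agent.P.MP_a378b9_nt.sm (2 / 3) (5 / 6) p := by
    simp only [T, gbinom, Pool.Agent.P.MP_a378b9_nt.sm, neg_div]
  constructor
  · intro h
    obtain ⟨h1, h2, h3, h4⟩ := Pool.Agent.P.MP_a378b9_nt.final_one hp h
    have he : eps p = 1 := by simp [eps, h1, h2]
    rw [he, one_mul, hS, hT]
    exact ⟨h3, h4⟩
  · intro h
    obtain ⟨h1, h2, h3, h4⟩ := Pool.Agent.P.MP_a378b9_nt.final_two hp h
    have he : eps p = -5 := by simp [eps, h1, h2]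
    rw [he, hS, hT]
    exact ⟨h3, h4⟩

end Pool.Agent.Results.MP_a378b9_nt.Full
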